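import Pool.Agent.Lib.MP_5be2a5_lc.BG.All3
import Pool.Agent.Lib.MP_5be2a5_lc.BG.R6

/-!
# MP_5be2a5_lc: irreducible actions on bad groups, the general case

`G` is a ranked group, `S` a normal definable bad subgroup of `G` and `M` a definable connected
subgroup of `G` which acts on `S` (by conjugation) faithfully and irreducibly, for instance
`G = S ⋊ M` for a faithful, definable, irreducible action.
-/

open Pool.Agent.Lib.MP5be2a5

theorem Pool.Agent.Results.MP_5be2a5_lc.Irreducible.result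
    (G : Type) [Group G] (L : FirstOrder.Language.{0, 0}) [L.Structure G]
    (rk : ∀ ι : Type, Set (ι → G) → ℕ) (hrk : IsRank L rk) (hmul : MulDef (G := G) L)
    (S : Subgroup G) (hn : S.Normal) (hS : IsBad L S)
    (M : Subgroup G) (hM : DefSub L M) (hconn : Conn L M)
    (hfaith : ∀ m ∈ M, Cnt m S → m = 1) (hirr : Irr L M S) :
    (∀ R : Subgroup G, R ≤ M → (∀ m ∈ M, Nrm m R) → Group.IsSolvable R → R = ⊥) ∧
    ((rkSub rk M = rkSub rk S ∧ (∀ m ∈ M, ∃ s ∈ S, ActsAs S m s) ∧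
        ∀ s ∈ S, ∃ m ∈ M, ActsAs S m s) ∨
      (rkSub rk S < rkSub rk M ∧ (∀ s ∈ S, ∃ m ∈ M, ActsAs S m s) ∧
        ∀ B : Subgroup G, IsBorel L S B → rkSub rk M + 2 * rkSub rk B + 1 ≤ 2 * rkSub rk S ∧
          (rkSub rk B = 1 ∨ (∀ x ∈ M, ∀ y ∈ M, Nrm x B → Nrm y B → x * y = y * x) →
            rkSub rk M + 2 * rkSub rk B + 2 ≤ 2 * rkSub rk S)) ∨
      (3 ≤ rkSub rk M ∧ 7 ≤ rkSub rk S ∧ (∀ s ∈ S, ∀ m ∈ M, ActsAs S m s → s = 1) ∧
        ∀ B : Subgroup G, IsBorel L S B → rkSub rk M + 2 * rkSub rk B + 1 ≤ rkSub rk S ∧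
          (rkSub rk B = 1 → rkSub rk M + 2 * rkSub rk B + 2 ≤ rkSub rk S))) := by
  haveI : MulDf (G := G) L := ⟨hmul⟩
  haveI := hn
  have h := badFacts hrk hmul hn hS
  have hP := part2 hmul hn hS h
  have hQ := part3 hmul hn hS h
  have h3 : 3 ≤ rkSub rk M := three_le hrk hmul hn hS hM hconn hfaith hirr
  refine ⟨h.fna M hfaith hirr, ?_⟩
  rcases h.fnb M hM hfaith hirr with ⟨hin, hle, hup, heq⟩ | ⟨hno, hup⟩
  · rcases eq_or_lt_of_le hle with h5 | h5
    · exact Or.inl ⟨h5.symm, heq hconn h5.symm, hin⟩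
    · refine Or.inr (Or.inl ⟨h5, hin, fun B hB => ⟨hup B hB, ?_⟩⟩)
      have hu : rkSub rk M + 2 * rkSub rk B + 1 ≤ 2 * rkSub rk S := hup B hB
      have h5' : rkSub rk S < rkSub rk M := h5
      rintro (hb | hab)
      · have := r5a hS h.rkFacts h.degB h.borA h.borB h.cnj h.gen hP hQ hM hconn hfaith hin B hB hb
          (by have : 3 ≤ Rk rk (M : Set G) := h3
              omega)
        have h6 : rkSub rk M + 3 ≠ 2 * rkSub rk S := this
        omega
      · have hN := hP.nmb M hM hfaith hin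
        have hbin := hP.bin (hP.niv S hS.1 (fth_S h.borA))
        have hr : rkSub rk (nrmM M B) + rkSub rk S = rkSub rk M + rkSub rk B := hN.rkn B hB
        have h6 : rkSub rk M ≠ 2 * rkSub rk (nrmM M B) + 1 :=
          hP.ctm M hM hfaith hconn hin hN hbin h5 B hB
            (fun x hx y hy => hab x hx.1 y hy.1 hx.2 hy.2)
        omega
  · have hup' : ∀ B : Subgroup G, IsBorel L S B →
        rkSub rk M + 2 * rkSub rk B + 1 ≤ rkSub rk S ∧
          (rkSub rk B = 1 → rkSub rk M + 2 * rkSub rk B + 2 ≤ rkSub rk S) := by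
      intro B hB
      have hu : rkSub rk M + 2 * rkSub rk B + 1 ≤ rkSub rk S := hup B hB
      refine ⟨hu, fun hb => ?_⟩
      have h6 : rkSub rk M + 4 ≤ rkSub rk S :=
        r5c hS h.rkFacts h.degB h.borA h.borB h.cnj h.gen hP hQ hM hconn hfaith hno B hB hb
          (by have : rkSub rk M + 3 ≤ rkSub rk S := by omega
              exact this)
      omega
    refine Or.inr (Or.inr ⟨h3, ?_, hno, hup'⟩)
    obtain ⟨B, hB, -⟩ := h.borA.elem 1 S.one_mem
    have hb : 1 ≤ rkSub rk B := hP.bin (hP.niv S hS.1 (fth_S h.borA)) B hB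
    obtain ⟨h7, h8⟩ := hup' B hB
    omega
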