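import Pool.Agent.Lib.MP_5be2a5_lc.BG.All

/-!
# MP_5be2a5_lc: every nontrivial definable automorphism of a bad group normalises exactly one Borel

`G` is a ranked group (a group with a definable multiplication in a structure whose definable sets
carry a rank which satisfies the Borovik-Poizat axioms, for instance a group of finite Morley rank)
and `S` is a normal definable bad subgroup of `G`.
-/

open Pool.Agent.Lib.MP5be2a5

theorem Pool.Agent.Results.MP_5be2a5_lc.OneBorel.result
    (G : Type) [Group G] (L : FirstOrder.Language.{0, 0}) [L.Structure G]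
    (rk : ∀ ι : Type, Set (ι → G) → ℕ) (hrk : IsRank L rk) (hmul : MulDef (G := G) L)
    (S : Subgroup G) (hn : S.Normal) (hS : IsBad L S) (y : G) (hy : ¬ Cnt y S) :
    ∃! B : Subgroup G, IsBorel L S B ∧ Nrm y B := by
  have h := badFacts hrk hmul hn hS
  obtain ⟨B, hB, hyB⟩ := h.exi y hy
  exact ⟨B, ⟨hB, hyB⟩, fun C hC => h.uni y hy C B hC.1 hB hC.2 hyB⟩
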