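import Pool.Agent.Lib.MP_5be2a5_lc.BG.All3

/-!
# MP_5be2a5_lc, Q1 for bad groups of rank at most 4

`G` is a ranked group (a group with definable multiplication in a structure whose definable sets
carry a rank which satisfies the Borovik-Poizat axioms, for instance a group of finite Morley rank),
`S` is a normal definable bad subgroup of `G` and `M` is a definable connected subgroup of `G` which
acts on `S` (by conjugation) faithfully and irreducibly; for instance `G = S ⋊ M`.
If `rk S ≤ 4` then the image of `M` in `Aut(S)` is `Inn(S)`.  The same holds if `rk S ≤ 2 rk B + 1` for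
a Borel `B` of `S`, and if `rk S ≤ 2 rk B + 2` and the elements of `M` which normalise `B` commute.
-/

open Pool.Agent.Lib.MP5be2a5

theorem Pool.Agent.Results.MP_5be2a5_lc.RankAtMostFour.result
    (G : Type) [Group G] (L : FirstOrder.Language.{0, 0}) [L.Structure G]
    (rk : ∀ ι : Type, Set (ι → G) → ℕ) (hrk : IsRank L rk) (hmul : MulDef (G := G) L)
    (S : Subgroup G) (hn : S.Normal) (hS : IsBad L S)
    (M : Subgroup G) (hM : DefSub L M) (hconn : Conn L M)
    (hfaith : ∀ m ∈ M, Cnt m S → m = 1) (hirr : Irr L M S)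
    (h : rkSub rk S ≤ 4 ∨ ∃ B : Subgroup G, IsBorel L S B ∧
      (rkSub rk S ≤ 2 * rkSub rk B + 1 ∨ rkSub rk S ≤ 2 * rkSub rk B + 2 ∧
        ∀ x ∈ M, ∀ y ∈ M, Nrm x B → Nrm y B → x * y = y * x)) :
    (∀ m ∈ M, ∃ s ∈ S, ActsAs S m s) ∧ ∀ s ∈ S, ∃ m ∈ M, ActsAs S m s := by
  rcases h with h | ⟨B, hB, h | ⟨h, hab⟩⟩
  · exact q1_le_four hrk hmul hn hS hM hconn hfaith hirr h
  · exact q1_two hrk hmul hn hS hM hconn hfaith hirr B hB h
  · refine q1_abelian hrk hmul hn hS hM hconn hfaith hirr B hB h ?_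
    rintro x ⟨hx, hxB⟩ y ⟨hy, hyB⟩
    exact hab x hx y hy hxB hyB
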